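import Pool.Agent.K3h56.E2.Stm
import Pool.Agent.K3h25.RS.Trans

/-!
# The primes of a quadratic extension over a prime of the base field
-/

set_option autoImplicit false
set_option linter.style.haveILetI false
set_option linter.unusedSectionVars false

open NumberField IsDedekindDomain
open scoped Pointwise

noncomputable section

namespace Pool.Agent.K3h25.E2

open Pool.Agent.K3h30.RS Pool.Agent.K3h56.E2

section

variable {F K : Type} [Field F] [NumberField F] [Field K] [NumberField K] [Algebra F K]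

/-- the adic valuation and an automorphism -/
theorem val_aut (w w' : HeightOneSpectrum (𝓞 K)) (γ : K ≃ₐ[F] K)
    (h : ∀ x : 𝓞 K, x ∈ w'.asIdeal ↔ γ • x ∈ w.asIdeal) (x : K) :
    w'.valuation K x = w.valuation K (γ x) := by
  have hint : ∀ a : 𝓞 K, w'.intValuation a = w.intValuation (γ • a) := fun a =>
    Pool.Agent.K3h25.RS.intVal_aut (MulSemiringAction.toRingEquiv (K ≃ₐ[F] K) (𝓞 K) γ) w w' h a
  obtain ⟨a, b, _, hab⟩ := IsFractionRing.div_surjective (A := 𝓞 K) x
  have h1 : γ x = algebraMap (𝓞 K) K (γ • a) / algebraMap (𝓞 K) K (γ • b) := by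
    rw [← hab, map_div₀]
    rfl
  rw [h1, ← hab, map_div₀, map_div₀, HeightOneSpectrum.valuation_of_algebraMap,
    HeightOneSpectrum.valuation_of_algebraMap, HeightOneSpectrum.valuation_of_algebraMap,
    HeightOneSpectrum.valuation_of_algebraMap, hint, hint]

theorem above_iff (v : HeightOneSpectrum (𝓞 F)) (Q : HeightOneSpectrum (𝓞 K)) :
    Above {v} Q ↔ Q.asIdeal ∈ v.asIdeal.primesOver (𝓞 K) := by
  constructor
  · rintro ⟨v', hv', h⟩
    rw [Set.mem_singleton_iff] at hv'
    subst hv'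
    exact ⟨Q.isPrime, ⟨h.symm⟩⟩
  · rintro ⟨_, h⟩
    exact ⟨v, rfl, h.over.symm⟩

theorem ne_bot_of_mem (v : HeightOneSpectrum (𝓞 F)) {x : Ideal (𝓞 K)}
    (hx : x ∈ v.asIdeal.primesOver (𝓞 K)) : x ≠ ⊥ := by
  intro h0
  have h1 := hx.2.over
  rw [h0] at h1
  apply v.ne_bot
  rw [h1]
  exact (RingHom.injective_iff_ker_eq_bot _).mp (FaithfulSMul.algebraMap_injective (𝓞 F) (𝓞 K))

/-- a prime over `v` as an element of the spectrum -/
theorem exists_spec (v : HeightOneSpectrum (𝓞 F)) {x : Ideal (𝓞 K)}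
    (hx : x ∈ v.asIdeal.primesOver (𝓞 K)) : ∃ P : HeightOneSpectrum (𝓞 K), P.asIdeal = x :=
  ⟨⟨x, hx.1, ne_bot_of_mem v hx⟩, rfl⟩

end

theorem t_LOC : S_LOC := by
  intro F K _ _ _ _ _ τ hQ v
  haveI : Algebra.IsQuadraticExtension F K := { finrank_eq_two' := hQ.deg }
  haveI : IsGalois F K := inferInstance
  haveI := v.isPrime
  haveI := v.isMaximal
  have hcard : Nat.card (K ≃ₐ[F] K) = 2 := by
    rw [IsGalois.card_aut_eq_finrank, hQ.deg]
  have h2 : ∀ σ : K ≃ₐ[F] K, σ ≠ 1 → σ = τ := by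
    intro σ hσ
    obtain ⟨y, hy, hy'⟩ := (Nat.card_eq_two_iff' (1 : K ≃ₐ[F] K)).mp hcard
    rw [hy' σ hσ, hy' τ hQ.ne]
  have hτ1 : τ ≠ 1 := hQ.ne
  have hinv : τ⁻¹ = τ := h2 _ (inv_ne_one.mpr hτ1)
  set p := v.asIdeal with hp
  have hp0 : p ≠ ⊥ := v.ne_bot
  haveI : Module.Flat (𝓞 F) (𝓞 K) := inferInstance
  have hfund := Ideal.ncard_primesOver_mul_ramificationIdxIn_mul_inertiaDegIn p (𝓞 K)
    (K ≃ₐ[F] K)
  rw [hcard] at hfund
  set e := p.ramificationIdxIn (𝓞 K) with he
  set f := p.inertiaDegIn (𝓞 K) with hf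
  set n := (p.primesOver (𝓞 K)).ncard with hn
  -- ramification indices and norms
  have hram : ∀ x ∈ p.primesOver (𝓞 K), x.ramificationIdx (𝓞 F) = e := by
    intro x hx
    haveI := hx.1
    haveI := hx.2
    exact (Ideal.ramificationIdxIn_eq_ramificationIdx p x (K ≃ₐ[F] K)).symm
  have hnorm : ∀ x ∈ p.primesOver (𝓞 K), Ideal.absNorm x = Ideal.absNorm p ^ f := by
    intro x hx
    haveI := hx.1
    haveI := hx.2
    haveI : x.IsMaximal := hx.1.isMaximal (ne_bot_of_mem v hx)
    rw [Ideal.absNorm_eq_pow_inertiaDeg'_of_liesOver x p inferInstance hp0,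
      Ideal.inertiaDeg'_eq_inertiaDeg p x, hf,
      Ideal.inertiaDegIn_eq_inertiaDeg p x (K ≃ₐ[F] K)]
  have hprod := Ideal.map_algebraMap_eq_finsetProd_pow (R := 𝓞 K) (p := p) hp0
  have hsmul : ∀ x ∈ p.primesOver (𝓞 K), τ • x ∈ p.primesOver (𝓞 K) := by
    intro x hx
    haveI := hx.1
    haveI := hx.2
    exact ⟨inferInstance, inferInstance⟩
  have hNv : 2 ≤ Ideal.absNorm p := by
    have h3 : Ideal.absNorm p ≠ 0 := by
      rw [Ne, Ideal.absNorm_eq_zero_iff]
      exact hp0
    have h4 : Ideal.absNorm p ≠ 1 := by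
      rw [Ne, Ideal.absNorm_eq_one_iff]
      exact v.isPrime.ne_top
    omega
  have hn12 : n = 1 ∨ n = 2 := (Nat.dvd_prime Nat.prime_two).mp ⟨e * f, hfund.symm⟩
  rcases hn12 with hn1 | hn2
  · obtain ⟨x, hx⟩ := Set.ncard_eq_one.mp hn1
    have hxm : x ∈ p.primesOver (𝓞 K) := by
      rw [hx]
      exact Set.mem_singleton x
    obtain ⟨P, rfl⟩ := exists_spec v hxm
    have habove : ∀ Q : HeightOneSpectrum (𝓞 K), Above {v} Q ↔ Q = P := by
      intro Q
      rw [above_iff, ← hp, hx, Set.mem_singleton_iff]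
      exact ⟨fun h => HeightOneSpectrum.ext h, fun h => by rw [h]⟩
    have hnot : ¬ ∃ P P' : HeightOneSpectrum (𝓞 K), P ≠ P' ∧ Above {v} P ∧ Above {v} P' := by
      rintro ⟨P1, P2, h12, h3, h4⟩
      exact h12 (((habove P1).mp h3).trans ((habove P2).mp h4).symm)
    have hfs : (p.primesOver (𝓞 K)).toFinset = {P.asIdeal} := by
      ext y
      rw [Set.mem_toFinset, hx, Set.mem_singleton_iff, Finset.mem_singleton]
    rw [hfs, Finset.prod_singleton, hram _ hxm] at hprod
    have hNP := hnorm _ hxm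
    have hfix : τ • P.asIdeal = P.asIdeal := by
      have h3 := hsmul _ hxm
      rw [hx] at h3
      exact h3
    have hval : ∀ x : K, P.valuation K x = P.valuation K (τ x) := by
      intro x
      refine val_aut P P τ ?_ x
      intro y
      conv_lhs => rw [← hfix, Ideal.mem_pointwise_smul_iff_inv_smul_mem, hinv]
    rw [hn1, one_mul] at hfund
    constructor
    · intro hl
      exfalso
      unfold loc at hl
      rw [if_neg hnot] at hl
      by_cases h3 : ∃ P : HeightOneSpectrum (𝓞 K), Above {v} P ∧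
          Ideal.absNorm P.asIdeal = Ideal.absNorm v.asIdeal ^ 2
      · rw [if_pos h3] at hl
        norm_num at hl
      · rw [if_neg h3] at hl
        norm_num at hl
    · intro _
      refine ⟨P, habove, hval, ?_⟩
      have he12 : e = 1 ∨ e = 2 := (Nat.dvd_prime Nat.prime_two).mp ⟨f, hfund.symm⟩
      rcases he12 with he1 | he2
      · left
        have hf2 : f = 2 := by rw [he1, one_mul] at hfund; exact hfund
        rw [he1, pow_one] at hprod
        rw [hf2] at hNP
        refine ⟨?_, hprod, hNP⟩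
        unfold loc
        rw [if_neg hnot, if_pos ⟨P, (habove P).mpr rfl, hNP⟩]
      · right
        have hf1 : f = 1 := by
          rw [he2] at hfund
          omega
        rw [he2] at hprod
        rw [hf1, pow_one] at hNP
        refine ⟨?_, hprod, hNP⟩
        unfold loc
        rw [if_neg hnot, if_neg]
        rintro ⟨Q, hQ1, hQ2⟩
        rw [(habove Q).mp hQ1, hNP] at hQ2
        have h5 : Ideal.absNorm p < Ideal.absNorm p ^ 2 := by nlinarith
        exact absurd hQ2 h5.ne
  · obtain ⟨x, y, hxy, hs⟩ := Set.ncard_eq_two.mp hn2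
    have hxm : x ∈ p.primesOver (𝓞 K) := by
      rw [hs]
      exact Set.mem_insert _ _
    have hym : y ∈ p.primesOver (𝓞 K) := by
      rw [hs]
      exact Set.mem_insert_of_mem _ rfl
    obtain ⟨P, rfl⟩ := exists_spec v hxm
    obtain ⟨P', rfl⟩ := exists_spec v hym
    have hne : P ≠ P' := fun h => hxy (by rw [h])
    have habove : ∀ Q : HeightOneSpectrum (𝓞 K), Above {v} Q ↔ Q = P ∨ Q = P' := by
      intro Q
      rw [above_iff, ← hp, hs, Set.mem_insert_iff, Set.mem_singleton_iff]
      constructor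
      · rintro (h | h)
        · exact Or.inl (HeightOneSpectrum.ext h)
        · exact Or.inr (HeightOneSpectrum.ext h)
      · rintro (h | h)
        · exact Or.inl (by rw [h])
        · exact Or.inr (by rw [h])
    have hloc : loc K v = 1 := by
      unfold loc
      rw [if_pos ⟨P, P', hne, (habove P).mpr (Or.inl rfl), (habove P').mpr (Or.inr rfl)⟩]
    have hef : e * f = 1 := by
      rw [hn2] at hfund
      omega
    have he1 : e = 1 := Nat.eq_one_of_mul_eq_one_right hef
    have hf1 : f = 1 := Nat.eq_one_of_mul_eq_one_left hef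
    refine ⟨fun _ => ?_, fun h => absurd hloc h⟩
    refine ⟨P, P', hne, habove, ?_, ?_, ?_, ?_⟩
    · haveI := hxm.1
      haveI := hxm.2
      haveI := hym.1
      haveI := hym.2
      obtain ⟨σ, hσ⟩ := Ideal.exists_smul_eq_of_isGaloisGroup p P.asIdeal P'.asIdeal (K ≃ₐ[F] K)
      have hσ1 : σ ≠ 1 := by
        rintro rfl
        rw [one_smul] at hσ
        exact hxy hσ
      rw [h2 σ hσ1] at hσ
      intro x
      refine val_aut P P' τ ?_ x
      intro z
      rw [← hσ, Ideal.mem_pointwise_smul_iff_inv_smul_mem, hinv]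
    · have hfs : (p.primesOver (𝓞 K)).toFinset = {P.asIdeal, P'.asIdeal} := by
        ext y
        rw [Set.mem_toFinset, hs, Set.mem_insert_iff, Set.mem_singleton_iff, Finset.mem_insert,
          Finset.mem_singleton]
      rw [hfs, Finset.prod_pair hxy, hram _ hxm, hram _ hym, he1, pow_one, pow_one] at hprod
      exact hprod
    · rw [hnorm _ hxm, hf1, pow_one]
    · rw [hnorm _ hym, hf1, pow_one]

end Pool.Agent.K3h25.E2
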